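import Mathlib
import Pool.Agent.N733.TG.K

set_option autoImplicit false

/-! From tail bounds `C X / y ^ c` for the orbits which never enter `[-y, y]` to the orbits of almost all integers near
the values of multiplicative functions (helper60, tool of helper733). -/

namespace Pool.Agent.N60.MV

open Pool.Agent.N733.TG (LM Expanding keep_windows)

lemma fin_abs (P : ℤ → Prop) (X : ℝ) : {x : ℤ | |(x : ℝ)| ≤ X ∧ P x}.Finite := by
  apply (Set.finite_Icc (-⌈X⌉) ⌈X⌉).subset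
  rintro x ⟨hx, -⟩
  have h1 := abs_le.1 hx
  have h2 := Int.le_ceil X
  rw [Set.mem_Icc]
  constructor
  · have : (-(⌈X⌉ : ℤ) : ℝ) ≤ x := by linarith
    exact_mod_cast this
  · have : (x : ℝ) ≤ (⌈X⌉ : ℤ) := by linarith
    exact_mod_cast this

/-- the number of `x`, `|x| ≤ X`, with the property `P` at the level `|x| ^ δ` -/
theorem tail_pow {P : ℤ → ℝ → Prop} (hmono : ∀ x y y', y ≤ y' → P x y' → P x y) {C c : ℝ} (hC : 0 < C) (hc : 0 < c)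
    (h : ∀ X y : ℝ, 1 ≤ X → 1 ≤ y → ({x : ℤ | |(x : ℝ)| ≤ X ∧ P x y}.ncard : ℝ) ≤ C * X / y ^ c)
    {δ : ℝ} (hδ : 0 < δ) (hcδ : c * δ < 1) :
    ∃ K : ℝ, 0 < K ∧ ∀ X : ℝ, 1 ≤ X →
      ({x : ℤ | |(x : ℝ)| ≤ X ∧ (x ≠ 0 ∧ P x (|(x : ℝ)| ^ δ))}.ncard : ℝ) ≤ K * X ^ (1 - c * δ) := by
  obtain ⟨s, hs⟩ : ∃ s, s = 1 - c * δ := ⟨_, rfl⟩
  have hs0 : 0 < s := by rw [hs]; linarith
  have hs1 : s < 1 := by
    have : 0 < c * δ := by positivity
    rw [hs]; linarith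
  have h2s : (1 : ℝ) < 2 ^ s := Real.one_lt_rpow (by norm_num) hs0
  have h2s0 : (0 : ℝ) < 2 ^ s := by linarith
  obtain ⟨K, hK⟩ : ∃ K : ℝ, K = 5 + C * 2 * (2 ^ s / (2 ^ s - 1)) := ⟨_, rfl⟩
  have hd0 : 0 < (2 : ℝ) ^ s - 1 := by linarith
  have hK5 : 5 ≤ K := by
    rw [hK]
    have : 0 < C * 2 * (2 ^ s / (2 ^ s - 1)) := by positivity
    linarith
  refine ⟨K, by linarith, ?_⟩
  rw [← hs]
  have key : ∀ n : ℕ, ∀ X : ℝ, 1 ≤ X → X < 2 ^ (n + 1) →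
      ({x : ℤ | |(x : ℝ)| ≤ X ∧ (x ≠ 0 ∧ P x (|(x : ℝ)| ^ δ))}.ncard : ℝ) ≤ K * X ^ s := by
    intro n
    induction n with
    | zero =>
      intro X hX hX2
      have h1 : {x : ℤ | |(x : ℝ)| ≤ X ∧ (x ≠ 0 ∧ P x (|(x : ℝ)| ^ δ))} ⊆ ((Finset.Icc (-2 : ℤ) 2 : Finset ℤ) : Set ℤ) := by
        rintro x ⟨hx, -⟩
        rw [Finset.coe_Icc, Set.mem_Icc]
        rw [zero_add, pow_one] at hX2
        have h2 := abs_le.1 hx
        constructor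
        · have : (((-2 : ℤ)) : ℝ) ≤ x := by push_cast; linarith
          exact_mod_cast this
        · have : (x : ℝ) ≤ ((2 : ℤ) : ℝ) := by push_cast; linarith
          exact_mod_cast this
      have h2 := Set.ncard_le_ncard h1 (Finset.finite_toSet _)
      rw [Set.ncard_coe_finset] at h2
      have h3 : (Finset.Icc (-2 : ℤ) 2).card = 5 := by decide
      rw [h3] at h2
      have h4 : (({x : ℤ | |(x : ℝ)| ≤ X ∧ (x ≠ 0 ∧ P x (|(x : ℝ)| ^ δ))}.ncard : ℕ) : ℝ) ≤ 5 := by exact_mod_cast h2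
      have h5 : (1 : ℝ) ≤ X ^ s := Real.one_le_rpow hX hs0.le
      calc _ ≤ (5 : ℝ) := h4
        _ ≤ K * 1 := by linarith
        _ ≤ K * X ^ s := mul_le_mul_of_nonneg_left h5 (by linarith)
    | succ n ih =>
      intro X hX hX2
      rcases lt_or_ge X (2 ^ (n + 1)) with hlt | hge
      · exact ih X hX hlt
      · have hX0 : 0 < X := by linarith
        have h2X : 2 ≤ X := by
          have : (2 : ℝ) ^ 1 ≤ 2 ^ (n + 1) := pow_le_pow_right₀ (by norm_num) (by omega)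
          linarith
        have hh : X / 2 < 2 ^ (n + 1) := by
          rw [div_lt_iff₀ (by norm_num)]
          calc X < 2 ^ (n + 1 + 1) := hX2
            _ = _ := by ring
        have h1 := ih (X / 2) (by linarith) hh
        have hy1 : 1 ≤ (X / 2) ^ δ := Real.one_le_rpow (by linarith) hδ.le
        have h2 := h X ((X / 2) ^ δ) hX hy1
        have hsub : {x : ℤ | |(x : ℝ)| ≤ X ∧ (x ≠ 0 ∧ P x (|(x : ℝ)| ^ δ))} ⊆
            {x : ℤ | |(x : ℝ)| ≤ X / 2 ∧ (x ≠ 0 ∧ P x (|(x : ℝ)| ^ δ))} ∪ {x : ℤ | |(x : ℝ)| ≤ X ∧ P x ((X / 2) ^ δ)} := by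
          rintro x ⟨hx, hx0, hP⟩
          rcases le_total |(x : ℝ)| (X / 2) with hc1 | hc1
          · exact Or.inl ⟨hc1, hx0, hP⟩
          · exact Or.inr ⟨hx, hmono _ _ _ (Real.rpow_le_rpow (by linarith) hc1 hδ.le) hP⟩
        have h3 := (Set.ncard_le_ncard hsub ((fin_abs _ _).union (fin_abs _ _))).trans (Set.ncard_union_le _ _)
        have h4 : (({x : ℤ | |(x : ℝ)| ≤ X ∧ (x ≠ 0 ∧ P x (|(x : ℝ)| ^ δ))}.ncard : ℕ) : ℝ) ≤
            ({x : ℤ | |(x : ℝ)| ≤ X / 2 ∧ (x ≠ 0 ∧ P x (|(x : ℝ)| ^ δ))}.ncard : ℝ) +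
            ({x : ℤ | |(x : ℝ)| ≤ X ∧ P x ((X / 2) ^ δ)}.ncard : ℝ) := by exact_mod_cast h3
        have hX2s : (X / 2) ^ s = X ^ s / 2 ^ s := Real.div_rpow hX0.le (by norm_num) s
        have e1 : C * X / ((X / 2) ^ δ) ^ c = C * 2 * (X / 2) ^ s := by
          have hp : (0 : ℝ) < X / 2 := by linarith
          rw [← Real.rpow_mul hp.le, hs, Real.rpow_sub hp, Real.rpow_one, mul_comm c δ]
          field_simp
        rw [e1] at h2
        have hXs : 0 < X ^ s := Real.rpow_pos_of_pos hX0 _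
        have e2 : K * (X ^ s / 2 ^ s) + C * 2 * (X ^ s / 2 ^ s) ≤ K * X ^ s := by
          have e3 : K + C * 2 ≤ K * 2 ^ s := by
            have e4 : C * 2 * 2 ^ s = C * 2 * (2 ^ s / (2 ^ s - 1)) * (2 ^ s - 1) := by
              field_simp
            have e5 : C * 2 * (2 ^ s / (2 ^ s - 1)) * (2 ^ s - 1) ≤ K * (2 ^ s - 1) := by
              apply mul_le_mul_of_nonneg_right _ hd0.le
              rw [hK]; linarith
            have e6 : C * 2 * 1 ≤ C * 2 * 2 ^ s := mul_le_mul_of_nonneg_left h2s.le (by positivity)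
            nlinarith
          have e7 : (K + C * 2) * (X ^ s / 2 ^ s) ≤ K * 2 ^ s * (X ^ s / 2 ^ s) :=
            mul_le_mul_of_nonneg_right e3 (by positivity)
          have e8 : K * 2 ^ s * (X ^ s / 2 ^ s) = K * X ^ s := by field_simp
          linarith
        rw [hX2s] at h1 h2
        linarith
  intro X hX
  obtain ⟨n, hn⟩ := pow_unbounded_of_one_lt X (by norm_num : (1 : ℝ) < 2)
  exact key n X hX (lt_of_lt_of_le hn (pow_le_pow_right₀ (by norm_num) (by omega)))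

/-- **Application of the tool of helper733.** For almost all `u` no nonzero integer `x` with `| |x| - G (f u) | ≤ f(u)^κ` has the
property `P` at the level `|x| ^ δ`. -/
theorem keep_tail {P : ℤ → ℝ → Prop} (hmono : ∀ x y y', y ≤ y' → P x y' → P x y) {C c : ℝ} (hC : 0 < C) (hc : 0 < c)
    (h : ∀ X y : ℝ, 1 ≤ X → 1 ≤ y → ({x : ℤ | |(x : ℝ)| ≤ X ∧ P x y}.ncard : ℝ) ≤ C * X / y ^ c)
    {δ : ℝ} (hδ : 0 < δ) (hcδ : c * δ < 1) {f : ℕ → ℕ} (hf : LM f) {G : ℕ → ℝ} {e : ℝ} (hG : Expanding G e) {κ : ℝ}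
    (hκ : 0 ≤ κ) (h1 : e * (1 - c * δ) + κ < 1) (U : ℕ) :
    ∃ N₀ : ℕ, ∀ N : ℕ, N₀ ≤ N →
      ({u : ℕ | 1 ≤ u ∧ u ≤ N ∧ ¬ ∀ x : ℤ, x ≠ 0 → |(|x| : ℝ) - G (f u)| ≤ (f u : ℝ) ^ κ →
        ¬ P x (|(x : ℝ)| ^ δ)}.ncard : ℝ) ≤ N / Real.log N ^ U := by
  obtain ⟨K, hK, hcount⟩ := tail_pow hmono hC hc h hδ hcδ
  obtain ⟨N₀, hN₀⟩ := keep_windows {x : ℤ | x ≠ 0 ∧ P x (|(x : ℝ)| ^ δ)} (fun x : ℤ => |(x : ℝ)|) hf hG
    (s := 1 - c * δ) (κ := κ) (by linarith) hκ h1 (fun ε hε => ⟨K, fun X hX => by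
      have e1 : {t : ℤ | t ∈ {x : ℤ | x ≠ 0 ∧ P x (|(x : ℝ)| ^ δ)} ∧ |(t : ℝ)| ≤ X} =
          {x : ℤ | |(x : ℝ)| ≤ X ∧ (x ≠ 0 ∧ P x (|(x : ℝ)| ^ δ))} := by
        ext x
        simp only [Set.mem_ofPred_eq]
        tauto
      rw [e1]
      exact ⟨fin_abs _ _, (hcount X hX).trans (mul_le_mul_of_nonneg_left
        (Real.rpow_le_rpow_of_exponent_le hX (by linarith)) hK.le)⟩⟩) U
  refine ⟨N₀, fun N hN => le_trans (le_of_eq ?_) (hN₀ N hN)⟩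
  congr 2
  ext u
  simp only [Set.mem_ofPred_eq]
  constructor
  · rintro ⟨h2, h3, h4⟩
    push Not at h4
    obtain ⟨x, hx, h5, h6⟩ := h4
    exact ⟨h2, h3, x, ⟨hx, h6⟩, h5⟩
  · rintro ⟨h2, h3, x, ⟨hx, h6⟩, h5⟩
    exact ⟨h2, h3, fun h => h x hx h5 h6⟩

end Pool.Agent.N60.MV
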