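import Mathlib
import Pool.Agent.N60.MV.Tail

set_option autoImplicit false

/-! From mean values over families indexed by integers to almost all values of multiplicative functions (helper60, tool of
helper733). -/

namespace Pool.Agent.N60.MV

open Finset Pool.Agent.N733.TG

/-- a bound for the dyadic blocks gives a bound for the whole set -/
theorem dyadic {P : ℤ → Prop} {s C : ℝ} (hs : 0 < s) (hC : 0 ≤ C)
    (h : ∀ X : ℝ, 2 ≤ X → ({x : ℤ | |(x : ℝ)| ≤ X ∧ (X / 2 < |(x : ℝ)| ∧ P x)}.ncard : ℝ) ≤ C * X ^ s) :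
    ∃ K : ℝ, 0 < K ∧ ∀ X : ℝ, 1 ≤ X → ({x : ℤ | |(x : ℝ)| ≤ X ∧ P x}.ncard : ℝ) ≤ K * X ^ s := by
  have h2s : (1 : ℝ) < 2 ^ s := Real.one_lt_rpow (by norm_num) hs
  have h2s0 : (0 : ℝ) < 2 ^ s := by linarith
  have hd0 : 0 < (2 : ℝ) ^ s - 1 := by linarith
  obtain ⟨K, hK⟩ : ∃ K : ℝ, K = 5 + C * (2 ^ s / (2 ^ s - 1)) := ⟨_, rfl⟩
  have hK5 : 5 ≤ K := by
    rw [hK]
    have : 0 ≤ C * (2 ^ s / (2 ^ s - 1)) := by positivity
    linarith
  refine ⟨K, by linarith, ?_⟩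
  have key : ∀ n : ℕ, ∀ X : ℝ, 1 ≤ X → X < 2 ^ (n + 1) →
      ({x : ℤ | |(x : ℝ)| ≤ X ∧ P x}.ncard : ℝ) ≤ K * X ^ s := by
    intro n
    induction n with
    | zero =>
      intro X hX hX2
      have h1 : {x : ℤ | |(x : ℝ)| ≤ X ∧ P x} ⊆ ((Finset.Icc (-2 : ℤ) 2 : Finset ℤ) : Set ℤ) := by
        rintro x ⟨hx, -⟩
        rw [Finset.coe_Icc, Set.mem_Icc]
        rw [zero_add, pow_one] at hX2
        have h2 := abs_le.1 hx
        constructor
        · have : (((-2 : ℤ)) : ℝ) ≤ x := by push_cast; linarith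
          exact_mod_cast this
        · have : (x : ℝ) ≤ ((2 : ℤ) : ℝ) := by push_cast; linarith
          exact_mod_cast this
      have h2 := Set.ncard_le_ncard h1 (Finset.finite_toSet _)
      rw [Set.ncard_coe_finset] at h2
      have h3 : (Finset.Icc (-2 : ℤ) 2).card = 5 := by decide
      rw [h3] at h2
      have h4 : (({x : ℤ | |(x : ℝ)| ≤ X ∧ P x}.ncard : ℕ) : ℝ) ≤ 5 := by exact_mod_cast h2
      have h5 : (1 : ℝ) ≤ X ^ s := Real.one_le_rpow hX hs.le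
      calc _ ≤ (5 : ℝ) := h4
        _ ≤ K * 1 := by linarith
        _ ≤ K * X ^ s := mul_le_mul_of_nonneg_left h5 (by linarith)
    | succ n ih =>
      intro X hX hX2
      rcases lt_or_ge X (2 ^ (n + 1)) with hlt | hge
      · exact ih X hX hlt
      · have hX0 : 0 < X := by linarith
        have h2X : 2 ≤ X := by
          have : (2 : ℝ) ^ 1 ≤ 2 ^ (n + 1) := pow_le_pow_right₀ (by norm_num) (by omega)
          linarith
        have hh : X / 2 < 2 ^ (n + 1) := by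
          rw [div_lt_iff₀ (by norm_num)]
          calc X < 2 ^ (n + 1 + 1) := hX2
            _ = _ := by ring
        have h1 := ih (X / 2) (by linarith) hh
        have h2 := h X h2X
        have hsub : {x : ℤ | |(x : ℝ)| ≤ X ∧ P x} ⊆
            {x : ℤ | |(x : ℝ)| ≤ X / 2 ∧ P x} ∪ {x : ℤ | |(x : ℝ)| ≤ X ∧ (X / 2 < |(x : ℝ)| ∧ P x)} := by
          rintro x ⟨hx, hP⟩
          rcases le_or_gt |(x : ℝ)| (X / 2) with hc1 | hc1
          · exact Or.inl ⟨hc1, hP⟩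
          · exact Or.inr ⟨hx, hc1, hP⟩
        have h3 := (Set.ncard_le_ncard hsub ((fin_abs _ _).union (fin_abs _ _))).trans (Set.ncard_union_le _ _)
        have h4 : (({x : ℤ | |(x : ℝ)| ≤ X ∧ P x}.ncard : ℕ) : ℝ) ≤
            ({x : ℤ | |(x : ℝ)| ≤ X / 2 ∧ P x}.ncard : ℝ) +
            ({x : ℤ | |(x : ℝ)| ≤ X ∧ (X / 2 < |(x : ℝ)| ∧ P x)}.ncard : ℝ) := by exact_mod_cast h3
        have hX2s : (X / 2) ^ s = X ^ s / 2 ^ s := Real.div_rpow hX0.le (by norm_num) s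
        have hXs : 0 < X ^ s := Real.rpow_pos_of_pos hX0 _
        have e2 : K * (X ^ s / 2 ^ s) + C * X ^ s ≤ K * X ^ s := by
          have e3 : K + C * 2 ^ s ≤ K * 2 ^ s := by
            have e4 : C * 2 ^ s = C * (2 ^ s / (2 ^ s - 1)) * (2 ^ s - 1) := by
              field_simp
            have e5 : C * (2 ^ s / (2 ^ s - 1)) * (2 ^ s - 1) ≤ K * (2 ^ s - 1) := by
              apply mul_le_mul_of_nonneg_right _ hd0.le
              rw [hK]; linarith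
            nlinarith
          have e7 : (K + C * 2 ^ s) * (X ^ s / 2 ^ s) ≤ K * 2 ^ s * (X ^ s / 2 ^ s) :=
            mul_le_mul_of_nonneg_right e3 (by positivity)
          have e8 : K * 2 ^ s * (X ^ s / 2 ^ s) = K * X ^ s := by field_simp
          have e9 : C * 2 ^ s * (X ^ s / 2 ^ s) = C * X ^ s := by field_simp
          linarith
        rw [hX2s] at h1
        linarith
  intro X hX
  obtain ⟨n, hn⟩ := pow_unbounded_of_one_lt X (by norm_num : (1 : ℝ) < 2)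
  exact key n X hX (lt_of_lt_of_le hn (pow_le_pow_right₀ (by norm_num) (by omega)))

lemma log_pow_le {ε : ℝ} (hε : 0 < ε) (A : ℕ) : ∃ K : ℝ, 0 < K ∧ ∀ x : ℝ, 1 ≤ x → Real.log x ^ A ≤ K * x ^ ε := by
  obtain ⟨δ, hδ⟩ : ∃ δ : ℝ, δ = ε / (A + 1) := ⟨_, rfl⟩
  have hA : (0 : ℝ) < (A : ℝ) + 1 := by positivity
  have hδ0 : 0 < δ := by rw [hδ]; positivity
  refine ⟨(1 / δ) ^ A, by positivity, fun x hx => ?_⟩
  have h0 : 0 ≤ Real.log x := Real.log_nonneg hx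
  have h1 : Real.log x ≤ x ^ δ / δ := Real.log_le_rpow_div (by linarith) hδ0
  calc Real.log x ^ A ≤ (x ^ δ / δ) ^ A := pow_le_pow_left₀ h0 h1 A
    _ = (1 / δ) ^ A * x ^ (δ * A) := by
      rw [div_pow, ← Real.rpow_natCast (x ^ δ) A, ← Real.rpow_mul (by linarith)]
      rw [one_div, inv_pow]
      field_simp
    _ ≤ (1 / δ) ^ A * x ^ ε := by
      apply mul_le_mul_of_nonneg_left _ (by positivity)
      apply Real.rpow_le_rpow_of_exponent_le hx
      rw [hδ, div_mul_eq_mul_div, div_le_iff₀ hA]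
      nlinarith

/-- **Mean values.** Let `Lam d t ≥ 0` for `d` in a family `Sq` of integers, with mean values of the powers `p` of order
`X (log X)^A`, for all choices of the points `t_d`. Then for all `u ≤ N` but `N / (log N)^U` one has
`Lam d t ≤ |d|^β (2 + |t|)^B'` for every `d` with `| |d| - G (f u) | ≤ f(u)^κ`, and all `t`. -/
theorem keep_mean {Lam : ℤ → ℝ → ℝ} (hL : ∀ d t, 0 ≤ Lam d t) {Sq : ℤ → Prop} {sq : ℕ → Finset ℤ}
    (hsq : ∀ (X : ℕ) (d : ℤ), d ∈ sq X ↔ |d| ≤ X ∧ Sq d) {p : ℝ} (hp : 0 < p) {C : ℝ} {A B B' : ℕ}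
    (hB : (B : ℝ) ≤ B' * p)
    (h : ∀ (X : ℕ) (t : ℤ → ℝ), 3 ≤ X → ∑ d ∈ sq X, Lam d (t d) ^ p / (2 + |t d|) ^ B ≤ C * X * Real.log X ^ A)
    {β : ℝ} (hβ : 0 < β) {f : ℕ → ℕ} (hf : LM f) {G : ℕ → ℝ} {q : ℝ} (hG : Expanding G q) {κ : ℝ} (hκ : 0 ≤ κ)
    (hs : q * max 0 (1 - p * β) + κ < 1) (U : ℕ) :
    ∃ N₀ : ℕ, ∀ N : ℕ, N₀ ≤ N →
      ({u : ℕ | 1 ≤ u ∧ u ≤ N ∧ ¬ ∀ d : ℤ, Sq d → |(|d| : ℝ) - G (f u)| ≤ (f u : ℝ) ^ κ →
        ∀ t : ℝ, Lam d t ≤ |(d : ℝ)| ^ β * (2 + |t|) ^ B'}.ncard : ℝ) ≤ N / Real.log N ^ U := by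
  classical
  obtain ⟨s, hs'⟩ : ∃ s : ℝ, s = max 0 (1 - p * β) := ⟨_, rfl⟩
  have hs0 : 0 ≤ s := by rw [hs']; exact le_max_left _ _
  have hs1 : 1 - p * β ≤ s := by rw [hs']; exact le_max_right _ _
  rw [← hs'] at hs
  obtain ⟨C₀, hC₀⟩ : ∃ C₀ : ℝ, C₀ = |C| := ⟨_, rfl⟩
  have hC₀0 : 0 ≤ C₀ := by rw [hC₀]; exact abs_nonneg _
  set P : ℤ → Prop := fun d => Sq d ∧ ∃ t : ℝ, |(d : ℝ)| ^ β * (2 + |t|) ^ B' < Lam d t with hP
  have hcount : ∀ ε : ℝ, 0 < ε → ∃ K : ℝ, 0 < K ∧ ∀ X : ℝ, 1 ≤ X →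
      ({x : ℤ | |(x : ℝ)| ≤ X ∧ P x}.ncard : ℝ) ≤ K * X ^ (s + ε) := by
    intro ε hε
    obtain ⟨K₁, hK₁, hlog⟩ := log_pow_le hε A
    apply dyadic (by linarith) (C := 7 + C₀ * (2 : ℝ) ^ (p * β) * K₁) (by positivity)
    intro X hX
    have hX1 : (1 : ℝ) ≤ X := by linarith
    have hX0 : (0 : ℝ) ≤ X := by linarith
    have hXs : (1 : ℝ) ≤ X ^ (s + ε) := Real.one_le_rpow hX1 (by linarith)
    set M : ℕ := ⌊X⌋₊ with hM
    have hMX : (M : ℝ) ≤ X := Nat.floor_le hX0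
    rcases Nat.lt_or_ge M 3 with hM3 | hM3
    · have h1 : {x : ℤ | |(x : ℝ)| ≤ X ∧ (X / 2 < |(x : ℝ)| ∧ P x)} ⊆ ((Finset.Icc (-3 : ℤ) 3 : Finset ℤ) : Set ℤ) := by
        rintro x ⟨hx, -⟩
        rw [Finset.coe_Icc, Set.mem_Icc]
        have hX3 : X < 3 := by
          have := Nat.lt_floor_add_one X
          rw [← hM] at this
          have h2 : (M : ℝ) + 1 ≤ 3 := by exact_mod_cast (show M + 1 ≤ 3 by omega)
          linarith
        have h2 := abs_le.1 hx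
        constructor
        · have : (((-3 : ℤ)) : ℝ) ≤ x := by push_cast; linarith
          exact_mod_cast this
        · have : (x : ℝ) ≤ ((3 : ℤ) : ℝ) := by push_cast; linarith
          exact_mod_cast this
      have h2 := Set.ncard_le_ncard h1 (Finset.finite_toSet _)
      rw [Set.ncard_coe_finset] at h2
      have h3 : (Finset.Icc (-3 : ℤ) 3).card = 7 := by decide
      rw [h3] at h2
      have h4 : (({x : ℤ | |(x : ℝ)| ≤ X ∧ (X / 2 < |(x : ℝ)| ∧ P x)}.ncard : ℕ) : ℝ) ≤ 7 := by exact_mod_cast h2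
      have h5 : 0 ≤ C₀ * (2 : ℝ) ^ (p * β) * K₁ := by positivity
      calc _ ≤ (7 : ℝ) := h4
        _ ≤ (7 + C₀ * (2 : ℝ) ^ (p * β) * K₁) * 1 := by linarith
        _ ≤ _ := mul_le_mul_of_nonneg_left hXs (by positivity)
    · have hM0 : (0 : ℝ) < M := by exact_mod_cast (show 0 < M by omega)
      have hM1 : (1 : ℝ) ≤ M := by exact_mod_cast (show 1 ≤ M by omega)
      -- the points
      have hex : ∀ d : ℤ, ∃ t : ℝ, P d → |(d : ℝ)| ^ β * (2 + |t|) ^ B' < Lam d t := by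
        intro d
        by_cases hd : P d
        · obtain ⟨t, ht⟩ := hd.2
          exact ⟨t, fun _ => ht⟩
        · exact ⟨0, fun h => absurd h hd⟩
      choose t ht using hex
      have hmean := h M t hM3
      set Bl : Finset ℤ := (sq M).filter (fun d => X / 2 < |(d : ℝ)| ∧ P d) with hBl
      have hset : {x : ℤ | |(x : ℝ)| ≤ X ∧ (X / 2 < |(x : ℝ)| ∧ P x)} = (Bl : Set ℤ) := by
        ext d
        rw [Set.mem_ofPred_eq, mem_coe, hBl, mem_filter, hsq]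
        have e : |(d : ℝ)| ≤ X ↔ |d| ≤ (M : ℤ) := by
          have e1 : |(d : ℝ)| = ((d.natAbs : ℕ) : ℝ) := by
            rw [Nat.cast_natAbs, Int.cast_abs]
          rw [e1, ← Nat.le_floor_iff hX0, ← hM, ← Int.natCast_natAbs]
          exact_mod_cast Iff.rfl
        rw [e]
        constructor
        · rintro ⟨h1, h2, h3⟩
          exact ⟨⟨h1, h3.1⟩, h2, h3⟩
        · rintro ⟨⟨h1, -⟩, h2, h3⟩
          exact ⟨h1, h2, h3⟩
      rw [hset, Set.ncard_coe_finset]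
      have hterm : ∀ d ∈ Bl, ((M : ℝ) / 2) ^ (p * β) ≤ Lam d (t d) ^ p / (2 + |t d|) ^ B := by
        intro d hd
        rw [hBl, mem_filter] at hd
        obtain ⟨-, hd2, hd3⟩ := hd
        have h2t : (1 : ℝ) ≤ 2 + |t d| := by linarith [abs_nonneg (t d)]
        have h2t0 : (0 : ℝ) < 2 + |t d| := by linarith
        have hd0 : (0 : ℝ) < |(d : ℝ)| := by linarith
        have hlt := ht d hd3
        have h1 : (|(d : ℝ)| ^ β * (2 + |t d|) ^ B') ^ p ≤ Lam d (t d) ^ p :=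
          Real.rpow_le_rpow (by positivity) hlt.le hp.le
        have h3 : (|(d : ℝ)| ^ β * (2 + |t d|) ^ B') ^ p = |(d : ℝ)| ^ (p * β) * (2 + |t d|) ^ ((B' : ℝ) * p) := by
          rw [Real.mul_rpow (by positivity) (by positivity), ← Real.rpow_mul hd0.le, ← Real.rpow_natCast,
            ← Real.rpow_mul h2t0.le, mul_comm β p]
        have h4 : (2 + |t d|) ^ B ≤ (2 + |t d|) ^ ((B' : ℝ) * p) := by
          rw [← Real.rpow_natCast]
          exact Real.rpow_le_rpow_of_exponent_le h2t hB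
        have h5 : ((M : ℝ) / 2) ^ (p * β) ≤ |(d : ℝ)| ^ (p * β) :=
          Real.rpow_le_rpow (by positivity) (by linarith) (by positivity)
        rw [le_div_iff₀ (by positivity)]
        calc ((M : ℝ) / 2) ^ (p * β) * (2 + |t d|) ^ B ≤ |(d : ℝ)| ^ (p * β) * (2 + |t d|) ^ ((B' : ℝ) * p) :=
              mul_le_mul h5 h4 (by positivity) (by positivity)
          _ ≤ _ := by rw [← h3]; exact h1
      have hsum : (Bl.card : ℝ) * ((M : ℝ) / 2) ^ (p * β) ≤ C * M * Real.log M ^ A := by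
        refine le_trans ?_ hmean
        calc (Bl.card : ℝ) * ((M : ℝ) / 2) ^ (p * β) = ∑ d ∈ Bl, ((M : ℝ) / 2) ^ (p * β) := by
              rw [sum_const, nsmul_eq_mul]
          _ ≤ ∑ d ∈ Bl, Lam d (t d) ^ p / (2 + |t d|) ^ B := sum_le_sum hterm
          _ ≤ _ := sum_le_sum_of_subset_of_nonneg (filter_subset _ _) (fun d _ _ =>
              div_nonneg (Real.rpow_nonneg (hL _ _) _) (by positivity))
      have hMp : 0 < (M : ℝ) ^ (p * β) := Real.rpow_pos_of_pos hM0 _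
      have e1 : ((M : ℝ) / 2) ^ (p * β) = (M : ℝ) ^ (p * β) / 2 ^ (p * β) := Real.div_rpow hM0.le (by norm_num) _
      have h2p : (0 : ℝ) < 2 ^ (p * β) := Real.rpow_pos_of_pos (by norm_num) _
      have hlogM := hlog M hM1
      have hl0 : 0 ≤ Real.log M := Real.log_nonneg hM1
      have h6 : (Bl.card : ℝ) ≤ C₀ * 2 ^ (p * β) * K₁ * X ^ (s + ε) := by
        have h7 : (Bl.card : ℝ) * (M : ℝ) ^ (p * β) ≤ C₀ * M * (K₁ * (M : ℝ) ^ ε) * 2 ^ (p * β) := by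
          rw [e1, mul_div_assoc', div_le_iff₀ h2p] at hsum
          refine hsum.trans (mul_le_mul_of_nonneg_right ?_ h2p.le)
          calc C * M * Real.log M ^ A ≤ C₀ * M * Real.log M ^ A := by
                apply mul_le_mul_of_nonneg_right _ (by positivity)
                apply mul_le_mul_of_nonneg_right _ hM0.le
                rw [hC₀]; exact le_abs_self C
            _ ≤ C₀ * M * (K₁ * (M : ℝ) ^ ε) := mul_le_mul_of_nonneg_left hlogM (by positivity)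
        have h8 : (M : ℝ) * (M : ℝ) ^ ε ≤ (M : ℝ) ^ (s + ε) * (M : ℝ) ^ (p * β) := by
          rw [← Real.rpow_add hM0]
          nth_rewrite 1 [← Real.rpow_one (M : ℝ)]
          rw [← Real.rpow_add hM0]
          exact Real.rpow_le_rpow_of_exponent_le hM1 (by linarith)
        have h9 : (Bl.card : ℝ) * (M : ℝ) ^ (p * β) ≤ (C₀ * 2 ^ (p * β) * K₁ * (M : ℝ) ^ (s + ε)) * (M : ℝ) ^ (p * β) := by
          calc (Bl.card : ℝ) * (M : ℝ) ^ (p * β) ≤ C₀ * M * (K₁ * (M : ℝ) ^ ε) * 2 ^ (p * β) := h7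
            _ = (C₀ * 2 ^ (p * β) * K₁) * ((M : ℝ) * (M : ℝ) ^ ε) := by ring
            _ ≤ (C₀ * 2 ^ (p * β) * K₁) * ((M : ℝ) ^ (s + ε) * (M : ℝ) ^ (p * β)) :=
                mul_le_mul_of_nonneg_left h8 (by positivity)
            _ = _ := by ring
        refine (le_of_mul_le_mul_right h9 hMp).trans ?_
        apply mul_le_mul_of_nonneg_left _ (by positivity)
        exact Real.rpow_le_rpow hM0.le hMX (by linarith)
      calc (Bl.card : ℝ) ≤ C₀ * 2 ^ (p * β) * K₁ * X ^ (s + ε) := h6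
        _ ≤ (7 + C₀ * (2 : ℝ) ^ (p * β) * K₁) * X ^ (s + ε) := by
          apply mul_le_mul_of_nonneg_right _ (by linarith)
          linarith
  obtain ⟨N₀, hN₀⟩ := keep_windows {x : ℤ | P x} (fun x : ℤ => |(x : ℝ)|) hf hG
    (s := s) (κ := κ) hs0 hκ hs (fun ε hε => by
      obtain ⟨K, hK, hX⟩ := hcount ε hε
      refine ⟨K, fun X hX1 => ?_⟩
      have e1 : {t : ℤ | t ∈ {x : ℤ | P x} ∧ |(t : ℝ)| ≤ X} = {x : ℤ | |(x : ℝ)| ≤ X ∧ P x} := by
        ext x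
        simp only [Set.mem_ofPred_eq]
        tauto
      rw [e1]
      exact ⟨fin_abs _ _, hX X hX1⟩) U
  refine ⟨N₀, fun N hN => le_trans (le_of_eq ?_) (hN₀ N hN)⟩
  congr 2
  ext u
  simp only [Set.mem_ofPred_eq]
  constructor
  · rintro ⟨h2, h3, h4⟩
    push Not at h4
    obtain ⟨x, hx, h5, t, h6⟩ := h4
    exact ⟨h2, h3, x, ⟨hx, t, h6⟩, h5⟩
  · rintro ⟨h2, h3, x, ⟨hx, t, h6⟩, h5⟩
    exact ⟨h2, h3, fun h => absurd (h x hx h5 t) (not_le.2 h6)⟩

end Pool.Agent.N60.MV
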